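import Pool.Agent.H85.KS2.Targets

/-!
# Row IZ: moments of the sum of the majorants
-/

set_option autoImplicit false

open Pool.Agent.H98.KS Pool.Agent.H85.KS2

namespace Pool.Agent.H26.KS2

theorem card_HH (L : ℕ) (hL : 1 ≤ L) : ((HH L).card : ℝ) ≤ 17 * L := by
  have h1 : (HH L).card ≤ (JJ L).card := Finset.card_erase_le
  have h2 : (JJ L).card = 16 * L + 1 := by
    unfold JJ
    rw [Int.card_Icc]
    omega
  have h3 : (HH L).card ≤ 17 * L := by omega
  exact_mod_cast h3

theorem LG_nonneg (L : ℕ) : 0 ≤ LG L := by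
  unfold LG
  have : 0 ≤ Real.log (16 * (L : ℝ) + 1) := Real.log_nonneg (by
    have : (0 : ℝ) ≤ L := Nat.cast_nonneg L
    linarith)
  linarith

theorem ks2_IZ (hV2 : T_V2) (hLG : T_LG) : T_IZ := by
  intro k v hv hZ z ε hz hε
  obtain ⟨e, he⟩ : ∃ e : ℝ, e = ε / (z + 1) := ⟨_, rfl⟩
  have hz1 : 0 < z + 1 := by linarith
  have he0 : 0 < e := by rw [he]; positivity
  have hez : e * (z + 1) = ε := by rw [he]; field_simp
  obtain ⟨C₁, hC₁, h1⟩ := hLG v e he0
  obtain ⟨C₃, hC₃, h3⟩ := hZ e he0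
  have hcont : ∀ L : ℕ, 1 ≤ L → Continuous fun θ => ZV k L v θ := fun L hL => by
    unfold ZV
    exact continuous_finsetSum _ fun h _ => (hV2 k L h hL).2.pow v
  have hnn : ∀ L : ℕ, 1 ≤ L → ∀ θ, 0 ≤ ZV k L v θ := fun L hL θ => by
    unfold ZV
    exact Finset.sum_nonneg fun h _ => pow_nonneg ((hV2 k L h hL).1 θ).1 v
  have hsup : ∀ L : ℕ, 1 ≤ L → ∀ θ, ZV k L v θ ≤ (17 * C₁ * 17 ^ v) * (L : ℝ) ^ ((v : ℝ) + 1 + e) := by
    intro L hL θ
    have hL0 : (0 : ℝ) < L := by exact_mod_cast hL
    have hL1 : (1 : ℝ) ≤ L := by exact_mod_cast hL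
    have e1 : ZV k L v θ ≤ ∑ _h ∈ HH L, (LG L * (17 * (L : ℝ))) ^ v := by
      unfold ZV
      refine Finset.sum_le_sum fun h _ => ?_
      obtain ⟨g1, g2⟩ := (hV2 k L h hL).1 θ
      refine pow_le_pow_left₀ g1 (g2.trans ?_) v
      exact mul_le_mul_of_nonneg_left (by linarith) (LG_nonneg L)
    rw [Finset.sum_const, nsmul_eq_mul, mul_pow] at e1
    refine e1.trans ?_
    have e2 : LG L ^ v ≤ C₁ * (L : ℝ) ^ e := h1 L hL
    have e3 : (L : ℝ) ^ ((v : ℝ) + 1 + e) = (L : ℝ) ^ v * L * (L : ℝ) ^ e := by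
      rw [Real.rpow_add hL0, Real.rpow_add hL0, Real.rpow_natCast, Real.rpow_one]
    have e4 : (0 : ℝ) ≤ (L : ℝ) ^ e := (Real.rpow_pos_of_pos hL0 _).le
    calc ((HH L).card : ℝ) * (LG L ^ v * (17 * (L : ℝ)) ^ v) ≤
          (17 * L) * ((C₁ * (L : ℝ) ^ e) * (17 * (L : ℝ)) ^ v) := by
          have := card_HH L hL
          have := LG_nonneg L
          gcongr
      _ = _ := by
          rw [e3, mul_pow]
          ring
  rcases le_or_gt 2 z with h2 | h2
  · -- large exponents
    refine ⟨(17 * C₁ * 17 ^ v) ^ (z - 2) * C₃, by positivity, fun L hL => ?_⟩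
    have hL0 : (0 : ℝ) < L := by exact_mod_cast hL
    have hL1 : (1 : ℝ) ≤ L := by exact_mod_cast hL
    set M : ℝ := (17 * C₁ * 17 ^ v) * (L : ℝ) ^ ((v : ℝ) + 1 + e) with hM
    have hM0 : 0 < M := by positivity
    have hpt : ∀ θ, ZV k L v θ ^ z ≤ M ^ (z - 2) * ZV k L v θ ^ 2 := by
      intro θ
      have g0 := hnn L hL θ
      rcases g0.eq_or_lt with g | g
      · rw [← g, Real.zero_rpow (by linarith)]
        simp
      · have g1 : ZV k L v θ ^ z = ZV k L v θ ^ (z - 2) * ZV k L v θ ^ 2 := by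
          rw [← Real.rpow_natCast, ← Real.rpow_add g]
          congr 1
          push_cast
          ring
        rw [g1]
        exact mul_le_mul_of_nonneg_right
          (Real.rpow_le_rpow g0 (hsup L hL θ) (by linarith)) (by positivity)
    have hI : ∫ θ in (0 : ℝ)..1, ZV k L v θ ^ z ≤
        M ^ (z - 2) * (C₃ * (L : ℝ) ^ (2 * (v : ℝ) + 2 - k + e)) := by
      calc ∫ θ in (0 : ℝ)..1, ZV k L v θ ^ z ≤ ∫ θ in (0 : ℝ)..1, M ^ (z - 2) * ZV k L v θ ^ 2 := by
            apply intervalIntegral.integral_mono_on zero_le_one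
            · exact ((hcont L hL).rpow_const fun _ => Or.inr hz).intervalIntegrable _ _
            · exact (((hcont L hL).pow 2).const_mul _).intervalIntegrable _ _
            · exact fun θ _ => hpt θ
        _ = M ^ (z - 2) * ∫ θ in (0 : ℝ)..1, ZV k L v θ ^ 2 :=
            intervalIntegral.integral_const_mul _ _
        _ ≤ _ := mul_le_mul_of_nonneg_left (h3 L hL) (by positivity)
    refine hI.trans ?_
    rw [hM, Real.mul_rpow (by positivity) (by positivity), ← Real.rpow_mul hL0.le]
    have hmin : min 1 (z / 2) = 1 := min_eq_left (by linarith)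
    rw [hmin, mul_one]
    calc (17 * C₁ * 17 ^ v) ^ (z - 2) * (L : ℝ) ^ (((v : ℝ) + 1 + e) * (z - 2)) *
          (C₃ * (L : ℝ) ^ (2 * (v : ℝ) + 2 - k + e)) = (17 * C₁ * 17 ^ v) ^ (z - 2) * C₃ *
          (L : ℝ) ^ (((v : ℝ) + 1 + e) * (z - 2) + (2 * (v : ℝ) + 2 - k + e)) := by
          rw [Real.rpow_add hL0 (((v : ℝ) + 1 + e) * (z - 2)) (2 * (v : ℝ) + 2 - k + e)]
          ring
      _ ≤ _ := by
          refine mul_le_mul_of_nonneg_left ?_ (by positivity)
          refine Real.rpow_le_rpow_of_exponent_le hL1 ?_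
          nlinarith
  · -- small exponents
    refine ⟨C₃ ^ (z / 2), by positivity, fun L hL => ?_⟩
    have hL0 : (0 : ℝ) < L := by exact_mod_cast hL
    have hL1 : (1 : ℝ) ≤ L := by exact_mod_cast hL
    set A : ℝ := C₃ * (L : ℝ) ^ (2 * (v : ℝ) + 2 - k + e) with hA
    have hA0 : 0 < A := by positivity
    have hpt : ∀ θ, ZV k L v θ ^ z ≤
        A ^ (z / 2) * (z / 2 / A * ZV k L v θ ^ 2 + (1 - z / 2)) := by
      intro θ
      have g0 := hnn L hL θ
      have g1 := Real.geom_mean_le_arith_mean2_weighted (w₁ := z / 2) (w₂ := 1 - z / 2)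
        (p₁ := ZV k L v θ ^ 2 / A) (p₂ := 1) (by linarith) (by linarith) (by positivity)
        zero_le_one (by ring)
      rw [Real.one_rpow, mul_one, mul_one, Real.div_rpow (by positivity) hA0.le,
        ← Real.rpow_natCast (ZV k L v θ) 2, ← Real.rpow_mul g0, div_le_iff₀ (by positivity)] at g1
      have g2 : ((2 : ℕ) : ℝ) * (z / 2) = z := by
        push_cast
        ring
      rw [g2, Real.rpow_natCast] at g1
      refine g1.trans (le_of_eq ?_)
      ring
    have hI : ∫ θ in (0 : ℝ)..1, ZV k L v θ ^ z ≤ A ^ (z / 2) := by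
      calc ∫ θ in (0 : ℝ)..1, ZV k L v θ ^ z ≤
            ∫ θ in (0 : ℝ)..1, A ^ (z / 2) * (z / 2 / A * ZV k L v θ ^ 2 + (1 - z / 2)) := by
            apply intervalIntegral.integral_mono_on zero_le_one
            · exact ((hcont L hL).rpow_const fun _ => Or.inr hz).intervalIntegrable _ _
            · exact (((((hcont L hL).pow 2).const_mul _).add continuous_const).const_mul
                _).intervalIntegrable _ _
            · exact fun θ _ => hpt θ
        _ = A ^ (z / 2) * (z / 2 / A * (∫ θ in (0 : ℝ)..1, ZV k L v θ ^ 2) + (1 - z / 2)) := by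
            have hi : IntervalIntegrable (fun θ => z / 2 / A * ZV k L v θ ^ 2)
                MeasureTheory.volume 0 1 :=
              (((hcont L hL).pow 2).const_mul _).intervalIntegrable _ _
            rw [intervalIntegral.integral_const_mul, intervalIntegral.integral_add hi
              (continuous_const.intervalIntegrable _ _), intervalIntegral.integral_const_mul,
              intervalIntegral.integral_const]
            simp
        _ ≤ A ^ (z / 2) * (z / 2 / A * A + (1 - z / 2)) := by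
            have g1 : z / 2 / A * (∫ θ in (0 : ℝ)..1, ZV k L v θ ^ 2) ≤ z / 2 / A * A :=
              mul_le_mul_of_nonneg_left (h3 L hL) (by positivity)
            exact mul_le_mul_of_nonneg_left (by linarith) (by positivity)
        _ = A ^ (z / 2) := by
            rw [div_mul_cancel₀ _ hA0.ne']
            ring
    refine hI.trans ?_
    rw [hA, Real.mul_rpow hC₃.le (by positivity), ← Real.rpow_mul hL0.le]
    have hmin : min 1 (z / 2) = z / 2 := min_eq_right (by linarith)
    rw [hmin]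
    refine mul_le_mul_of_nonneg_left ?_ (by positivity)
    refine Real.rpow_le_rpow_of_exponent_le hL1 ?_
    nlinarith

end Pool.Agent.H26.KS2
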